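import Mathlib
import Pool.Agent.H255R2.Sid.Trans

set_option autoImplicit false

open Finset BigOperators

namespace Pool.Agent.H438R3.SidG

open Pool.Agent.H255R2.Sid

/-- Cosine of the angle between the residue class `t` modulo `m`, put on the circle, and the centre `s / 2`. -/
noncomputable def pos (m : ℕ) (s : ℤ) (t : ZMod m) : ℝ :=
  Real.cos (2 * Real.pi * (t.val : ℝ) / m - Real.pi * s / m)

theorem pos_int (m : ℕ) [NeZero m] (s k : ℤ) :
    pos m s (k : ZMod m) = Real.cos (2 * Real.pi * (k : ℝ) / m - Real.pi * s / m) := by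
  have hm : (m : ℝ) ≠ 0 := by exact_mod_cast NeZero.ne m
  have h1 : (((k : ZMod m).val : ℤ)) = k % m := ZMod.val_intCast k
  have h2 : k % m + m * (k / m) = k := Int.emod_add_mul_ediv k m
  have h3 : (k : ℝ) = ((k : ZMod m).val : ℝ) + m * ((k / m : ℤ) : ℝ) := by
    have h4 : (((k : ZMod m).val : ℤ)) + m * (k / m) = k := by rw [h1]; exact h2
    exact_mod_cast h4.symm
  unfold pos
  have h5 : 2 * Real.pi * (k : ℝ) / m - Real.pi * s / m
      = (2 * Real.pi * ((k : ZMod m).val : ℝ) / m - Real.pi * s / m)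
        + ((k / m : ℤ) : ℝ) * (2 * Real.pi) := by
    rw [h3]
    generalize ((k / m : ℤ) : ℝ) = q
    field_simp
    ring
  rw [h5, Real.cos_add_int_mul_two_pi]

theorem pos_sub (m : ℕ) [NeZero m] (s d : ℤ) (x y : ZMod m) :
    pos m s (x + y) - pos m s (x + (d - y))
      = 2 * (-Real.sin (2 * Real.pi * (x.val : ℝ) / m + Real.pi * d / m - Real.pi * s / m)
        * Real.sin (2 * Real.pi * (y.val : ℝ) / m - Real.pi * d / m)) := by
  have hm : (m : ℝ) ≠ 0 := by exact_mod_cast NeZero.ne m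
  have h1 : x + y = (((x.val : ℤ) + (y.val : ℤ) : ℤ) : ZMod m) := by
    push_cast
    simp
  have h2 : x + (d - y) = (((x.val : ℤ) + d - (y.val : ℤ) : ℤ) : ZMod m) := by
    push_cast
    simp
    ring
  rw [h1, h2, pos_int, pos_int, Real.cos_sub_cos]
  have h3 : (2 * Real.pi * (((x.val : ℤ) + (y.val : ℤ) : ℤ) : ℝ) / m - Real.pi * s / m
      + (2 * Real.pi * (((x.val : ℤ) + d - (y.val : ℤ) : ℤ) : ℝ) / m - Real.pi * s / m)) / 2
      = 2 * Real.pi * (x.val : ℝ) / m + Real.pi * d / m - Real.pi * s / m := by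
    push_cast
    field_simp
    ring
  have h4 : (2 * Real.pi * (((x.val : ℤ) + (y.val : ℤ) : ℤ) : ℝ) / m - Real.pi * s / m
      - (2 * Real.pi * (((x.val : ℤ) + d - (y.val : ℤ) : ℤ) : ℝ) / m - Real.pi * s / m)) / 2
      = 2 * Real.pi * (y.val : ℝ) / m - Real.pi * d / m := by
    push_cast
    field_simp
    ring
  rw [h3, h4]
  ring

theorem pos_refl (m : ℕ) [NeZero m] (s : ℤ) (t : ZMod m) : pos m s (s - t) = pos m s t := by
  have hm : (m : ℝ) ≠ 0 := by exact_mod_cast NeZero.ne m
  have h1 : (s : ZMod m) - t = ((s - (t.val : ℤ) : ℤ) : ZMod m) := by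
    push_cast
    simp
  rw [h1, pos_int]
  unfold pos
  rw [← Real.cos_neg]
  congr 1
  push_cast
  field_simp
  ring

section

variable {I F : Type} [Fintype I] [DecidableEq I] [Fintype F] [DecidableEq F]
  (n : I → ℕ) [∀ i, NeZero (n i)] (σ : I → ℤ)

/-- reflections -/
def rho : ((I × ℤ) ⊕ (F × F)) → Bool → ((∀ i, ZMod (n i)) × F) → ((∀ i, ZMod (n i)) × F)
  | .inl r, false, y => (Function.update y.1 r.1 (r.2 - y.1 r.1), y.2)
  | .inl r, true, x => (Function.update x.1 r.1 ((σ r.1 : ZMod (n r.1)) - r.2 - x.1 r.1), x.2)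
  | .inr r, _, x => (x.1, Equiv.swap r.1 r.2 x.2)

/-- sides of the mirrors -/
noncomputable def eps : ((I × ℤ) ⊕ (F × F)) → Bool → ((∀ i, ZMod (n i)) × F) → ℝ
  | .inl r, false, y => Real.sin (2 * Real.pi * ((y.1 r.1).val : ℝ) / n r.1 - Real.pi * r.2 / n r.1)
  | .inl r, true, x => -Real.sin (2 * Real.pi * ((x.1 r.1).val : ℝ) / n r.1 + Real.pi * r.2 / n r.1
      - Real.pi * σ r.1 / n r.1)
  | .inr _, _, _ => 0

theorem rho_invol (r : (I × ℤ) ⊕ (F × F)) (s : Bool) (x : (∀ i, ZMod (n i)) × F) :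
    rho n σ r s (rho n σ r s x) = x := by
  rcases r with r | r
  · cases s
    · simp [rho]
    · simp [rho]
  · simp [rho]

theorem mono_one (f : (∀ i, ZMod (n i)) → ℝ)
    (hf : ∀ t t', (∀ i, pos (n i) (σ i) (t i) ≤ pos (n i) (σ i) (t' i)) → f t ≤ f t')
    (i : I) (t t' : ∀ i, ZMod (n i)) (h : ∀ j, j ≠ i → t j = t' j)
    (hi : pos (n i) (σ i) (t i) ≤ pos (n i) (σ i) (t' i)) : f t ≤ f t' := by
  apply hf
  intro j
  by_cases hj : j = i
  · subst hj; exact hi
  · rw [h j hj]

theorem adm (f : (∀ i, ZMod (n i)) → ℝ) (hf0 : ∀ t, 0 ≤ f t)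
    (hf : ∀ t t', (∀ i, pos (n i) (σ i) (t i) ≤ pos (n i) (σ i) (t' i)) → f t ≤ f t') :
    Adm (rho (F := F) n σ) (eps n σ) (fun x y => f (x.1 + y.1)) := by
  have key : ∀ (t u : ℝ), 0 ≤ t * u → (u = 0 → t = 0) → ∃ c : ℝ, 0 ≤ c ∧ t = c * u := by
    intro t u h h0
    by_cases hu : u = 0
    · exact ⟨0, le_refl _, by rw [h0 hu]; ring⟩
    · refine ⟨t / u, ?_, by field_simp⟩
      have h1 : t / u = t * u / (u * u) := by field_simp
      rw [h1]
      exact div_nonneg h (mul_self_nonneg u)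
  refine ⟨fun x y => hf0 _, ?_, ?_⟩
  · intro r x y
    rcases r with r | r
    · have h1 : ∀ j, j ≠ r.1 → ((rho n σ (.inl r) true x).1 + (rho n σ (.inl r) false y).1) j
          = (x.1 + y.1) j := by
        intro j hj
        simp [rho, hj]
      have h2 : pos (n r.1) (σ r.1) (((rho n σ (.inl r) true x).1 + (rho n σ (.inl r) false y).1) r.1)
          = pos (n r.1) (σ r.1) ((x.1 + y.1) r.1) := by
        rw [← pos_refl (n r.1) (σ r.1) ((x.1 + y.1) r.1)]
        congr 1
        simp [rho]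
        ring
      exact le_antisymm (mono_one n σ f hf r.1 _ _ h1 h2.le)
        (mono_one n σ f hf r.1 _ _ (fun j hj => (h1 j hj).symm) h2.ge)
    · simp [rho]
  · intro r x y
    rcases r with r | r
    · apply key
      · have h1 : ∀ j, j ≠ r.1 → (x.1 + (rho n σ (.inl r) false y).1) j = (x.1 + y.1) j := by
          intro j hj
          simp [rho, hj]
        have h2 := pos_sub (n r.1) (σ r.1) r.2 (x.1 r.1) (y.1 r.1)
        have h3 : (x.1 + (rho n σ (.inl r) false y).1) r.1 = x.1 r.1 + (r.2 - y.1 r.1) := by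
          simp [rho]
        have h4 : eps n σ (.inl r) true x * eps n σ (.inl r) false y
            = (pos (n r.1) (σ r.1) ((x.1 + y.1) r.1)
              - pos (n r.1) (σ r.1) ((x.1 + (rho n σ (.inl r) false y).1) r.1)) / 2 := by
          rw [h3, Pi.add_apply, h2]
          simp only [eps]
          ring
        rw [h4]
        rcases le_total (pos (n r.1) (σ r.1) ((x.1 + y.1) r.1))
          (pos (n r.1) (σ r.1) ((x.1 + (rho n σ (.inl r) false y).1) r.1)) with h | h
        · have h5 := mono_one n σ f hf r.1 _ _ (fun j hj => (h1 j hj).symm) h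
          apply mul_nonneg_of_nonpos_of_nonpos <;> linarith
        · have h5 := mono_one n σ f hf r.1 _ _ h1 h
          apply mul_nonneg <;> linarith
      · intro h0
        have h1 : ∀ j, j ≠ r.1 → (x.1 + (rho n σ (.inl r) false y).1) j = (x.1 + y.1) j := by
          intro j hj
          simp [rho, hj]
        have h2 := pos_sub (n r.1) (σ r.1) r.2 (x.1 r.1) (y.1 r.1)
        have h3 : (x.1 + (rho n σ (.inl r) false y).1) r.1 = x.1 r.1 + (r.2 - y.1 r.1) := by
          simp [rho]
        have h4 : eps n σ (.inl r) true x * eps n σ (.inl r) false y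
            = (pos (n r.1) (σ r.1) ((x.1 + y.1) r.1)
              - pos (n r.1) (σ r.1) ((x.1 + (rho n σ (.inl r) false y).1) r.1)) / 2 := by
          rw [h3, Pi.add_apply, h2]
          simp only [eps]
          ring
        rw [h4] at h0
        have h6 : pos (n r.1) (σ r.1) ((x.1 + y.1) r.1)
            = pos (n r.1) (σ r.1) ((x.1 + (rho n σ (.inl r) false y).1) r.1) := by linarith
        have h7 := mono_one n σ f hf r.1 _ _ (fun j hj => (h1 j hj).symm) h6.le
        have h8 := mono_one n σ f hf r.1 _ _ h1 h6.ge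
        linarith
    · exact ⟨0, le_refl _, by simp [rho]⟩

theorem chain (y z : (∀ i, ZMod (n i)) × F) :
    Relation.ReflTransGen (Toward (rho n σ) (eps n σ) y) z y := by
  classical
  have h1 : ∀ S : Finset I, Relation.ReflTransGen (Toward (rho n σ) (eps n σ) y) z
      (fun i => if i ∈ S then y.1 i else z.1 i, z.2) := by
    intro S
    induction S using Finset.induction_on with
    | empty => simpa using Relation.ReflTransGen.refl
    | insert i S hi ih =>
      refine Relation.ReflTransGen.tail ih ?_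
      refine ⟨.inl (i, ((y.1 i).val : ℤ) + ((z.1 i).val : ℤ)), ?_, ?_⟩
      · ext j
        · simp only [rho]
          by_cases hj : j = i
          · subst hj
            simp [hi]
          · simp [hj]
        · simp [rho]
      · have h2 : eps n σ (.inl (i, ((y.1 i).val : ℤ) + ((z.1 i).val : ℤ))) false
            ((fun j => if j ∈ insert i S then y.1 j else z.1 j, z.2) : (∀ i, ZMod (n i)) × F)
            = eps n σ (.inl (i, ((y.1 i).val : ℤ) + ((z.1 i).val : ℤ))) false y := by
          simp [eps]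
        rw [h2]
        exact mul_self_nonneg _
  refine Relation.ReflTransGen.tail (h1 Finset.univ) ?_
  refine ⟨.inr (z.2, y.2), ?_, by simp [eps]⟩
  simp [rho]

theorem core [Nonempty F] {V E : Type} [Fintype V] [DecidableEq V] [Fintype E] [DecidableEq E]
    (side : V → Bool) (a b : E → V) (ha : ∀ e, side (a e) = true) (hb : ∀ e, side (b e) = false)
    (f : (∀ i, ZMod (n i)) → ℝ) (hf0 : ∀ t, 0 ≤ f t)
    (hf : ∀ t t', (∀ i, pos (n i) (σ i) (t i) ≤ pos (n i) (σ i) (t' i)) → f t ≤ f t') :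
    ((∑ x : (∀ i, ZMod (n i)) × F, ∑ y : (∀ i, ZMod (n i)) × F, f (x.1 + y.1))
        / (Fintype.card ((∀ i, ZMod (n i)) × F) : ℝ) ^ 2) ^ (Fintype.card E)
      * (Fintype.card ((∀ i, ZMod (n i)) × F) : ℝ) ^ (Fintype.card V)
      ≤ ∑ g : V → (∀ i, ZMod (n i)) × F, ∏ e, f ((g (a e)).1 + (g (b e)).1) :=
  sid_of_transitive side a b ha hb (rho n σ) (eps n σ) (rho_invol n σ) (chain n σ)
    (fun x y => f (x.1 + y.1)) (adm n σ f hf0 hf)

end

end Pool.Agent.H438R3.SidG
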