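import Mathlib
import Pool.Agent.H438R3.SidG.Core

set_option autoImplicit false

open Finset BigOperators

namespace Pool.Agent.H438R3.SidG

/-- `A` is monotone with respect to the circular coordinates `π` with centres `σ i / 2`: if every
coordinate of `h` is at least as close to the centre as that of the element `g` of `A`, then `h` is in `A`. -/
def Mono {I G : Type} [AddCommGroup G] (n : I → ℕ) (σ : I → ℤ) (π : G →+ (∀ i, ZMod (n i)))
    (A : Finset G) : Prop :=
  ∀ g ∈ A, ∀ h : G, (∀ i, pos (n i) (σ i) (π g i) ≤ pos (n i) (σ i) (π h i)) → h ∈ A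

theorem main_gen {I G V E : Type} [Fintype I] [DecidableEq I] (n : I → ℕ) [∀ i, NeZero (n i)]
    (σ : I → ℤ) [AddCommGroup G] [Fintype G] [DecidableEq G] (π : G →+ (∀ i, ZMod (n i)))
    (hπ : Function.Surjective π) (A : Finset G) (hA : Mono n σ π A)
    [Fintype V] [DecidableEq V] [Fintype E] [DecidableEq E]
    (side : V → Bool) (a b : E → V) (ha : ∀ e, side (a e) = true) (hb : ∀ e, side (b e) = false) :
    ((A.card : ℝ) / (Fintype.card G : ℝ)) ^ (Fintype.card E) * (Fintype.card G : ℝ) ^ (Fintype.card V)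
      ≤ ((Finset.univ.filter (fun g : V → G => ∀ e, g (a e) + g (b e) ∈ A)).card : ℝ) := by
  classical
  let s : (∀ i, ZMod (n i)) → G := Function.surjInv hπ
  have hs : ∀ q, π (s q) = q := Function.surjInv_eq hπ
  let e : G ≃ (∀ i, ZMod (n i)) × π.ker :=
    { toFun := fun g => (π g, ⟨g - s (π g), by
        rw [AddMonoidHom.mem_ker, map_sub, hs, sub_self]⟩)
      invFun := fun p => s p.1 + p.2.1
      left_inv := fun g => by simp
      right_inv := fun p => by
        have h1 : π (s p.1 + p.2.1) = p.1 := by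
          rw [map_add, hs, p.2.2, add_zero]
        refine Prod.ext h1 (Subtype.ext ?_)
        show s p.1 + p.2.1 - s (π (s p.1 + p.2.1)) = p.2.1
        rw [h1]
        abel }
  have he : ∀ g, (e g).1 = π g := fun g => rfl
  let f : (∀ i, ZMod (n i)) → ℝ := fun t => if ∃ g ∈ A, π g = t then 1 else 0
  have hf0 : ∀ t, 0 ≤ f t := by
    intro t
    simp only [f]
    split_ifs <;> norm_num
  have hf : ∀ t t', (∀ i, pos (n i) (σ i) (t i) ≤ pos (n i) (σ i) (t' i)) → f t ≤ f t' := by
    intro t t' h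
    by_cases h1 : ∃ g ∈ A, π g = t
    · obtain ⟨g, hg, rfl⟩ := h1
      have h2 : ∃ g ∈ A, π g = t' := by
        refine ⟨s t', hA g hg (s t') ?_, hs t'⟩
        rw [hs]
        exact h
      simp only [f]
      rw [if_pos h2]
      split_ifs <;> norm_num
    · simp only [f]
      rw [if_neg h1]
      exact hf0 t'
  have hK : ∀ g h : G, f ((e g).1 + (e h).1) = if g + h ∈ A then 1 else 0 := by
    intro g h
    rw [he, he, ← map_add]
    simp only [f]
    by_cases h1 : g + h ∈ A
    · rw [if_pos h1, if_pos ⟨g + h, h1, rfl⟩]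
    · rw [if_neg h1, if_neg]
      rintro ⟨g', hg', h2⟩
      exact h1 (hA g' hg' (g + h) (fun i => by rw [h2]))
  have h1 := core (F := π.ker) n σ side a b ha hb f hf0 hf
  have hcard : Fintype.card ((∀ i, ZMod (n i)) × π.ker) = Fintype.card G :=
    (Fintype.card_congr e).symm
  have hG : (0 : ℝ) < Fintype.card G := by exact_mod_cast Fintype.card_pos
  have h2 : (∑ x : (∀ i, ZMod (n i)) × π.ker, ∑ y : (∀ i, ZMod (n i)) × π.ker, f (x.1 + y.1))
      = (Fintype.card G : ℝ) * (A.card : ℝ) := by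
    rw [← e.sum_comp]
    have h3 : ∀ g : G, ∑ y : (∀ i, ZMod (n i)) × π.ker, f ((e g).1 + y.1) = (A.card : ℝ) := by
      intro g
      rw [← e.sum_comp]
      simp only [hK]
      have h8 := Equiv.sum_comp (Equiv.addLeft g) (fun h => if h ∈ A then (1 : ℝ) else 0)
      simp only [Equiv.coe_addLeft] at h8
      have h9 : (∑ i : G, if i ∈ A then (1 : ℝ) else 0) = (A.card : ℝ) := by simp
      rw [h9] at h8
      convert h8
    simp only [h3]
    simp
  have h4 : (∑ g : V → (∀ i, ZMod (n i)) × π.ker, ∏ x, f ((g (a x)).1 + (g (b x)).1))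
      = ((Finset.univ.filter (fun g : V → G => ∀ e, g (a e) + g (b e) ∈ A)).card : ℝ) := by
    rw [← (Equiv.arrowCongr (Equiv.refl V) e).sum_comp]
    rw [← Finset.sum_boole]
    apply Finset.sum_congr rfl
    intro g _
    have h5 : ∀ x, f (((Equiv.arrowCongr (Equiv.refl V) e) g (a x)).1
        + ((Equiv.arrowCongr (Equiv.refl V) e) g (b x)).1)
        = if g (a x) + g (b x) ∈ A then 1 else 0 := fun x => hK _ _
    rw [Finset.prod_congr rfl (fun x _ => h5 x)]
    split_ifs with h6
    · apply Finset.prod_eq_one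
      intro x _
      rw [if_pos (h6 x)]
    · push Not at h6
      obtain ⟨x, hx⟩ := h6
      apply Finset.prod_eq_zero (Finset.mem_univ x)
      rw [if_neg hx]
  rw [h2, h4, hcard] at h1
  have h7 : (Fintype.card G : ℝ) * (A.card : ℝ) / (Fintype.card G : ℝ) ^ 2
      = (A.card : ℝ) / (Fintype.card G : ℝ) := by
    field_simp
  rw [h7] at h1
  exact h1

/-- patterns -/
theorem main_pattern {I G : Type} [Fintype I] [DecidableEq I] (n : I → ℕ) [∀ i, NeZero (n i)]
    (σ : I → ℤ) [AddCommGroup G] [Fintype G] [DecidableEq G] (π : G →+ (∀ i, ZMod (n i)))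
    (hπ : Function.Surjective π) (A : Finset G) (hA : Mono n σ π A) (k l : ℕ)
    (P : Finset (Fin k × Fin l)) :
    ((A.card : ℝ) / (Fintype.card G : ℝ)) ^ P.card * (Fintype.card G : ℝ) ^ (k + l)
      ≤ ((Finset.univ.filter (fun p : (Fin k → G) × (Fin l → G) =>
          ∀ q ∈ P, p.1 q.1 + p.2 q.2 ∈ A)).card : ℝ) := by
  classical
  have h1 := main_gen n σ π hπ A hA (V := Fin k ⊕ Fin l) (E := P) (fun v => v.isLeft)
    (fun q => Sum.inl q.1.1) (fun q => Sum.inr q.1.2) (fun _ => rfl) (fun _ => rfl)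
  rw [Fintype.card_coe, Fintype.card_sum, Fintype.card_fin, Fintype.card_fin] at h1
  refine le_trans h1 (le_of_eq ?_)
  norm_cast
  refine Finset.card_bij' (fun g _ => (fun i => g (Sum.inl i), fun j => g (Sum.inr j)))
    (fun p _ => Sum.elim p.1 p.2) ?_ ?_ ?_ ?_
  · intro g hg
    simp only [Finset.mem_filter, Finset.mem_univ, true_and] at hg ⊢
    intro q hq
    exact hg ⟨q, hq⟩
  · intro p hp
    simp only [Finset.mem_filter, Finset.mem_univ, true_and] at hp ⊢
    intro q
    exact hp q.1 q.2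
  · intro g _
    funext v
    cases v <;> rfl
  · intro p _
    rfl

theorem main_five {I G : Type} [Fintype I] [DecidableEq I] (n : I → ℕ) [∀ i, NeZero (n i)]
    (σ : I → ℤ) [AddCommGroup G] [Fintype G] [DecidableEq G] (π : G →+ (∀ i, ZMod (n i)))
    (hπ : Function.Surjective π) (A : Finset G) (hA : Mono n σ π A) :
    ((((Finset.univ : Finset ((Fin 5 → G) × (Fin 5 → G))).filter
          (fun p => ∀ i j : Fin 5, (j = i ∨ j = i + 1 ∨ j = i + 2) → p.1 i + p.2 j ∈ A)).card : ℕ) : ℝ)
        ≥ ((A.card : ℝ) / (Fintype.card G : ℝ)) ^ 15 * (Fintype.card G : ℝ) ^ 10 := by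
  classical
  have h1 := main_pattern n σ π hπ A hA 5 5
    (Finset.univ.filter (fun q : Fin 5 × Fin 5 => q.2 = q.1 ∨ q.2 = q.1 + 1 ∨ q.2 = q.1 + 2))
  have h2 : (Finset.univ.filter (fun q : Fin 5 × Fin 5 =>
      q.2 = q.1 ∨ q.2 = q.1 + 1 ∨ q.2 = q.1 + 2)).card = 15 := by decide
  rw [h2] at h1
  refine le_trans h1 (le_of_eq ?_)
  norm_cast
  congr 1
  apply Finset.filter_congr
  intro p _
  constructor
  · intro h i j hij
    exact h (i, j) (by simpa using hij)
  · intro h q hq
    exact h q.1 q.2 (by simpa using hq)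

end Pool.Agent.H438R3.SidG
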