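import Mathlib
import Pool.Agent.H438R3.SidG.Main

set_option autoImplicit false

open Finset BigOperators

namespace Pool.Agent.H438R3.SidG

theorem pos_abs (N : ℕ) [NeZero N] (s k : ℤ) :
    pos N s (k : ZMod N) = Real.cos (Real.pi * (|2 * k - s| : ℤ) / N) := by
  rw [pos_int, ← Real.cos_abs (2 * Real.pi * (k : ℝ) / N - Real.pi * s / N)]
  congr 1
  have h1 : 2 * Real.pi * (k : ℝ) / N - Real.pi * s / N = Real.pi / N * (2 * k - s) := by ring
  have h2 : (0 : ℝ) ≤ Real.pi / N := by positivity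
  rw [h1, abs_mul, abs_of_nonneg h2]
  push_cast
  ring

theorem exists_rep (N : ℕ) [NeZero N] (c : ℤ) (t : ZMod N) :
    ∃ k : ℤ, c ≤ k ∧ k < c + N ∧ t = (k : ZMod N) := by
  have hN : (0 : ℤ) < N := by exact_mod_cast NeZero.pos N
  refine ⟨c + ((t.val : ℤ) - c) % N, ?_, ?_, ?_⟩
  · have := Int.emod_nonneg ((t.val : ℤ) - c) hN.ne'
    omega
  · have := Int.emod_lt_of_pos ((t.val : ℤ) - c) hN
    omega
  · have h1 : (((t.val : ℤ) - c) % (N : ℤ)) = ((t.val : ℤ) - c) - N * (((t.val : ℤ) - c) / N) := by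
      have := Int.emod_add_mul_ediv ((t.val : ℤ) - c) N
      linarith
    rw [h1]
    push_cast
    simp

theorem arc_mono {G : Type} [AddCommGroup G] (N : ℕ) [NeZero N] (χ : G →+ ZMod N) (a : ℤ) (m : ℕ)
    (A : Finset G) (hA : ∀ g, g ∈ A ↔ ∃ k : ℤ, a ≤ k ∧ k < a + m ∧ χ g = (k : ZMod N)) :
    Mono (fun _ : Unit => N) (fun _ => 2 * a + m - 1) (AddMonoidHom.mk' (fun g (_ : Unit) => χ g)
      (fun x y => by funext _; exact map_add χ x y)) A := by
  intro g hg h hle
  rw [hA] at hg ⊢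
  obtain ⟨k, hk1, hk2, hk3⟩ := hg
  have hle' : pos N (2 * a + m - 1) (χ g) ≤ pos N (2 * a + m - 1) (χ h) := hle ()
  have hN : (0 : ℤ) < N := by exact_mod_cast NeZero.pos N
  have hNr : (0 : ℝ) < N := by exact_mod_cast NeZero.pos N
  by_cases hm : N ≤ m
  · obtain ⟨k', h1, h2, h3⟩ := exists_rep N a (χ h)
    exact ⟨k', h1, by omega, h3⟩
  · obtain ⟨k', h1, h2, h3⟩ := exists_rep N ((2 * a + m - 1 - N + 1) / 2) (χ h)
    rw [hk3, h3, pos_abs, pos_abs] at hle'
    have e1 : |2 * k - (2 * a + m - 1)| ≤ m - 1 := by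
      rw [abs_le]; constructor <;> omega
    have e2 : |2 * k' - (2 * a + m - 1)| ≤ N := by
      rw [abs_le]; constructor <;> omega
    have r1 : (0 : ℤ) ≤ |2 * k - (2 * a + m - 1)| := abs_nonneg _
    have r2 : (0 : ℤ) ≤ |2 * k' - (2 * a + m - 1)| := abs_nonneg _
    generalize |2 * k - (2 * a + (m : ℤ) - 1)| = u at *
    have hv : |2 * k' - (2 * a + (m : ℤ) - 1)| = |2 * k' - (2 * a + (m : ℤ) - 1)| := rfl
    generalize hv' : |2 * k' - (2 * a + (m : ℤ) - 1)| = v at *
    have e3 : v ≤ u := by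
      have m1 : Real.pi * (v : ℝ) / N ∈ Set.Icc (0 : ℝ) Real.pi := by
        have : (v : ℝ) ≤ N := by exact_mod_cast e2
        have hv0 : (0 : ℝ) ≤ v := by exact_mod_cast r2
        constructor
        · positivity
        · rw [div_le_iff₀ hNr]
          exact mul_le_mul_of_nonneg_left this Real.pi_pos.le
      have m2 : Real.pi * (u : ℝ) / N ∈ Set.Icc (0 : ℝ) Real.pi := by
        have : (u : ℝ) ≤ N := by
          have : u ≤ (N : ℤ) := by omega
          exact_mod_cast this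
        have hu0 : (0 : ℝ) ≤ u := by exact_mod_cast r1
        constructor
        · positivity
        · rw [div_le_iff₀ hNr]
          exact mul_le_mul_of_nonneg_left this Real.pi_pos.le
      have h5 := (Real.strictAntiOn_cos.le_iff_ge m2 m1).mp hle'
      have h6 : Real.pi * (v : ℝ) ≤ Real.pi * (u : ℝ) := by
        have := (div_le_div_iff_of_pos_right hNr).mp h5
        exact this
      have h7 : (v : ℝ) ≤ u := le_of_mul_le_mul_left h6 Real.pi_pos
      exact_mod_cast h7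
    have e4 : |2 * k' - (2 * a + (m : ℤ) - 1)| ≤ m - 1 := by rw [hv']; omega
    rw [abs_le] at e4
    exact ⟨k', by omega, by omega, h3⟩

theorem cube_mono (d : ℕ) (A : Finset (Fin d → ZMod 2))
    (hA : ∀ g ∈ A, ∀ h : Fin d → ZMod 2, (∀ i, g i = 0 → h i = 0) → h ∈ A) :
    Mono (fun _ : Fin d => 2) (fun _ => 0) (AddMonoidHom.id (Fin d → ZMod 2)) A := by
  intro g hg h hle
  apply hA g hg h
  intro i hi
  have h1 := hle i
  simp only [AddMonoidHom.id_apply] at h1
  by_contra hne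
  have h2 : h i = 1 := by
    have : ∀ z : ZMod 2, z ≠ 0 → z = 1 := by decide
    exact this _ hne
  rw [hi, h2] at h1
  have e0 : pos 2 0 0 = 1 := by
    unfold pos
    simp
  have e1 : pos 2 0 1 = -1 := by
    unfold pos
    have : ((1 : ZMod 2).val : ℝ) = 1 := by
      norm_cast
    rw [this]
    have : 2 * Real.pi * 1 / ((2 : ℕ) : ℝ) - Real.pi * ((0 : ℤ) : ℝ) / ((2 : ℕ) : ℝ) = Real.pi := by
      push_cast
      ring
    rw [this, Real.cos_pi]
  rw [e0, e1] at h1
  linarith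

end Pool.Agent.H438R3.SidG
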